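import Pool.Agent.Helper89K9.AD.Dio3

/-!
# Approximate divisibility and the quotient, for the multiples of a rational point

`W` is the elliptic curve `Y² = Z³ - 2 Z² + 65 Z` over `ℚ`, `P0 = (5, 20)` is a generator of its
rational points modulo the torsion point `(0, 0)`, and `(zz m, yy m)` are the coordinates of
`m • P0`.  An integer is *good* if it has no prime factors congruent to `1` or `-1` modulo `16`.
There are integral polynomials `D, D', L, L'` of degree at most `4` and moduli `N m ≥ 1`, where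
`(N m)²` exceeds every good divisor of `m`, such that:

1. (domain) all four define relations whose points are nonzero multiples of `P0`;
2. (divisibility) `D` holds for `(m • P0, n • P0)` if `m ∣ n`; if it holds then every good divisor
   of `m` divides `n`; so for good `m` it is the divisibility;
3. (negation) `D'` holds for `(m • P0, n • P0)` iff `D` does not;
4. (quotient) for rational `x`: `L` holds for `(m • P0, (k m) • P0, x)` iff `x ≡ k` modulo `N m`;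
5. (negation) `L'` holds for `(m • P0, n • P0, x)` iff `L` does not.
-/

set_option autoImplicit false

namespace Pool.Agent.Results.MP_28f2cb_lc.ApproximateArithmetic

open Pool.Agent.H528R2 Pool.Agent.Helper89K9.AD

/-- No prime factor of `d` is congruent to `1` or `-1` modulo `16`. -/
def Good (d : ℤ) : Prop := ∀ p : ℕ, p.Prime → (p : ℤ) ∣ d → p % 16 ≠ 1 ∧ p % 16 ≠ 15

/-- `x ≡ k` modulo `N`, for a rational number `x`: `x - k` is `N` times a rational number whose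
denominator is prime to `N`. -/
def Cong (N : ℕ) (x : ℚ) (k : ℤ) : Prop :=
  ∀ q : ℕ, q.Prime → q ∣ N → padicNorm q (x - k) ≤ padicNorm q (N : ℚ)

/-- `a` satisfies the relation defined by `F`. -/
def Defined {k r : ℕ} (F : MvPolynomial (Fin k ⊕ Fin r) ℤ) (a : Fin k → ℚ) : Prop :=
  ∃ x : Fin r → ℚ, MvPolynomial.aeval (Sum.elim a x) F = 0

theorem result : ∃ (N : ℤ → ℕ) (r : ℕ) (D D' : MvPolynomial (Fin 4 ⊕ Fin r) ℤ)
    (L L' : MvPolynomial (Fin 5 ⊕ Fin r) ℤ),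
    (D.totalDegree ≤ 4 ∧ D'.totalDegree ≤ 4 ∧ L.totalDegree ≤ 4 ∧ L'.totalDegree ≤ 4) ∧
    -- the modulus
    (∀ m : ℤ, m ≠ 0 → N m ≠ 0 ∧ ∀ d : ℤ, d ∣ m → Good d → |d| ≤ (N m : ℤ) ^ 2) ∧
    -- the domain
    (∀ z y z' y' x : ℚ, (Defined D ![z, y, z', y'] ∨ Defined D' ![z, y, z', y'] ∨
      Defined L ![z, y, z', y', x] ∨ Defined L' ![z, y, z', y', x]) →
      ∃ m n : ℤ, m ≠ 0 ∧ n ≠ 0 ∧ z = zz m ∧ y = yy m ∧ z' = zz n ∧ y' = yy n) ∧
    -- divisibility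
    (∀ m n : ℤ, m ≠ 0 → n ≠ 0 →
      (m ∣ n → Defined D ![zz m, yy m, zz n, yy n]) ∧
      (Defined D ![zz m, yy m, zz n, yy n] → ∀ d : ℤ, d ∣ m → Good d → d ∣ n) ∧
      (Good m → (Defined D ![zz m, yy m, zz n, yy n] ↔ m ∣ n)) ∧
      (Defined D' ![zz m, yy m, zz n, yy n] ↔ ¬ Defined D ![zz m, yy m, zz n, yy n])) ∧
    -- the quotient
    (∀ m n : ℤ, m ≠ 0 → n ≠ 0 → ∀ x : ℚ,
      (∀ k : ℤ, n = k * m → (Defined L ![zz m, yy m, zz n, yy n, x] ↔ Cong (N m) x k)) ∧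
      (Defined L' ![zz m, yy m, zz n, yy n, x] ↔ ¬ Defined L ![zz m, yy m, zz n, yy n, x])) := by
  have d1 : DioQ 4 (fun a => Mul2 (a 0) (a 1) (a 2) (a 3) ∧ DE (a 0) (a 1) (a 2) (a 3)) :=
    Dio.DQ.dioQ dq_DE
  have d2 : DioQ 4 (fun a => Mul2 (a 0) (a 1) (a 2) (a 3) ∧ DE' (a 0) (a 1) (a 2) (a 3)) :=
    Dio.DQ.dioQ dq_DE'
  have d3 : DioQ 5 (fun a => Mul2 (a 0) (a 1) (a 2) (a 3) ∧
      LE (a 0) (a 1) (a 2) (a 3) (a 4)) := Dio.DQ.dioQ dq_LE
  have d4 : DioQ 5 (fun a => Mul2 (a 0) (a 1) (a 2) (a 3) ∧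
      LE' (a 0) (a 1) (a 2) (a 3) (a 4)) := Dio.DQ.dioQ dq_LE'
  obtain ⟨r1, hr1⟩ := H528R3.DioQ.poly d1
  obtain ⟨r2, hr2⟩ := H528R3.DioQ.poly d2
  obtain ⟨r3, hr3⟩ := H528R3.DioQ.poly d3
  obtain ⟨r4, hr4⟩ := H528R3.DioQ.poly d4
  obtain ⟨D, hD, -, hD'⟩ := hr1 (max (max r1 r2) (max r3 r4)) (by omega)
  obtain ⟨E, hE, -, hE'⟩ := hr2 (max (max r1 r2) (max r3 r4)) (by omega)
  obtain ⟨L, hL, -, hL'⟩ := hr3 (max (max r1 r2) (max r3 r4)) (by omega)
  obtain ⟨K, hK, -, hK'⟩ := hr4 (max (max r1 r2) (max r3 r4)) (by omega)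
  have k1 : ∀ z y z' y' : ℚ, Defined D ![z, y, z', y'] ↔ Mul2 z y z' y' ∧ DE z y z' y' :=
    fun z y z' y' => (hD' ![z, y, z', y']).symm
  have k2 : ∀ z y z' y' : ℚ, Defined E ![z, y, z', y'] ↔ Mul2 z y z' y' ∧ DE' z y z' y' :=
    fun z y z' y' => (hE' ![z, y, z', y']).symm
  have k3 : ∀ z y z' y' x : ℚ, Defined L ![z, y, z', y', x] ↔ Mul2 z y z' y' ∧ LE z y z' y' x :=
    fun z y z' y' x => (hL' ![z, y, z', y', x]).symm
  have k4 : ∀ z y z' y' x : ℚ, Defined K ![z, y, z', y', x] ↔ Mul2 z y z' y' ∧ LE' z y z' y' x :=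
    fun z y z' y' x => (hK' ![z, y, z', y', x]).symm
  have hM : ∀ m n : ℤ, m ≠ 0 → n ≠ 0 → Mul2 (zz m) (yy m) (zz n) (yy n) :=
    fun m n hm hn => (mul2_iff _ _ _ _).2 ⟨m, n, hm, hn, rfl, rfl, rfl, rfl⟩
  refine ⟨NN, _, D, E, L, K, ⟨hD, hE, hL, hK⟩, ?_, ?_, ?_, ?_⟩
  · intro m hm
    refine ⟨?_, fun d hd hg => NN_large hm hd hg⟩
    exact mul_ne_zero (by positivity) (Nm_ne hm)
  · intro z y z' y' x h
    rw [k1, k2, k3, k4] at h
    rw [← mul2_iff]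
    tauto
  · intro m n hm hn
    have h1 : Defined D ![zz m, yy m, zz n, yy n] ↔ Dv m n := by
      rw [k1, de_iff hm hn]
      exact and_iff_right (hM m n hm hn)
    have h2 : Defined E ![zz m, yy m, zz n, yy n] ↔ ¬ Dv m n := by
      rw [k2, de'_iff hm hn]
      exact and_iff_right (hM m n hm hn)
    have h3 : Dv m n → ∀ d : ℤ, d ∣ m → Good d → d ∣ n :=
      fun hD d hd hg => Dv.dvd hm hn hD hd hg
    refine ⟨fun h => h1.2 (Dv.of_dvd hn h), fun h => h3 (h1.1 h), fun hg =>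
      ⟨fun h => h3 (h1.1 h) m dvd_rfl hg, fun h => h1.2 (Dv.of_dvd hn h)⟩, ?_⟩
    rw [h1, h2]
  · intro m n hm hn x
    have h1 : Defined L ![zz m, yy m, zz n, yy n, x] ↔ LgN m n x := by
      rw [k3, le_iff hm hn]
      exact and_iff_right (hM m n hm hn)
    have h2 : Defined K ![zz m, yy m, zz n, yy n, x] ↔ ¬ LgN m n x := by
      rw [k4, le'_iff hm hn]
      exact and_iff_right (hM m n hm hn)
    refine ⟨?_, by rw [h1, h2]⟩
    rintro k rfl
    rw [h1, lgN_iff hm]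
    rfl

end Pool.Agent.Results.MP_28f2cb_lc.ApproximateArithmetic
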