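import Pool.Agent.Helper89K9.NX.Trans

/-!
# Bounded existential definability over `ℚ`, and a lower bound for Hilbert's tenth problem over `ℚ`

`Sol t R q`: the polynomial `t` has a zero with all coordinates in the subring `R` of `ℚ` and
first coordinate `q`.

1. For every relation `L(x, a)` in `NEXP` there is a polynomial-time algorithm which writes, for
   every string `x`, an integral polynomial `P x` of degree at most `4` which defines the set
   `{a < 2 ^ |x| : L(x, a)}` in every subring of `ℚ` (from `ℤ` to `ℚ`) at the same time.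
2. In particular this holds for the set of the values `z 0 < 2 ^ n` in the integral zeros `z` of
   an integral polynomial `F` with `|z i| < 2 ^ 2 ^ n`: the algorithm gets `F` and `n` (in unary).
3. For every subring `R` of `ℚ` Hilbert's tenth problem over `R`, restricted to polynomials of
   degree at most `4`, is `NEXP`-hard; it is neither in `NP` nor in `coNP`.
-/

set_option autoImplicit false

namespace Pool.Agent.Results.MP_28f2cb_lc.BoundedDefinability

open Pool.Agent.NPC Pool.Agent.H528R2 Pool.Agent.Helper89K9.NX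

theorem result :
    (∀ L : Set (List Bool), InNEXP L →
      ∃ P : List Bool → ER.Tm, PolyTime (fun x => bits (P x)) ∧
        ∀ x, (toMv (P x)).totalDegree ≤ 4 ∧ ∀ (R : Subring ℚ) (q : ℚ), Sol (P x) R q ↔
          ∃ a : ℕ, a < 2 ^ x.length ∧ pairBits x a.bits ∈ L ∧ q = a) ∧
    (∃ P : List (ℤ × List ℕ) → ℕ → ER.Tm,
      (∃ G : List Bool → List Bool, PolyTime G ∧
        ∀ F n, G (bits (F, List.replicate n ())) = bits (P F n)) ∧
      ∀ F n, (toMv (P F n)).totalDegree ≤ 4 ∧ ∀ (R : Subring ℚ) (q : ℚ), Sol (P F n) R q ↔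
        ∃ z : ℕ → ℤ, (∀ i, |z i| < 2 ^ 2 ^ n) ∧ MvPolynomial.eval z (ofMon F) = 0 ∧
          0 ≤ z 0 ∧ z 0 < 2 ^ n ∧ q = z 0) ∧
    (∀ R : Subring ℚ, NEXPHard (H10 R) ∧ ¬ InNP (H10 R) ∧ ¬ InCoNP (H10 R)) :=
  ⟨fun _ hL => slices_rel hL, translation,
    fun R => ⟨hard_H10 R, (hard_H10 R).not_inNP, (hard_H10 R).not_inCoNP⟩⟩

end Pool.Agent.Results.MP_28f2cb_lc.BoundedDefinability
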