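import Pool.Agent.Helper14K9.ZT.HInst
import Pool.Agent.Results.MP_28f2cb_lc.HassePrincipleFamilies

/-!
# The integers are not a Boolean combination of towers over families with the Hasse principle

We consider the following sets `D` of rational numbers `t` (`TowerSet`). There are given

* finitely many families `V₁, …, V_s` of projective schemes over the `t`-line which satisfy the Hasse
  principle and for which the rational points of a fibre are dense in its real points, if there are
  any: for example families of conics `a(t) y₀² + b(t) y₁² + c(t) y₂² = 0` with any polynomials
  `a, b, c`, or other quadric bundles over the line satisfying the Hasse principle;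
* a triangular system of quadratic equations: its free variables are `t`, the coordinates of points
  `y_j` of the fibres `V_j(t)`, and further variables `w`; then there are new variables `z⁽¹⁾` and an
  equation which is quadratic in `z⁽¹⁾`, with coefficients in `ℚ[t, y, w]`, new variables `z⁽²⁾` and
  an equation which is quadratic in `z⁽²⁾`, with coefficients in `ℚ[t, y, w, z⁽¹⁾]`, and so on.

`D` is the set of the `t` for which there are rational points `y_j` of `V_j(t)`, rational numbers `w`,
and rational `z⁽¹⁾, z⁽²⁾, …` such that all the equations hold, their symmetric matrices have rank at
least five at this solution and it is not a vertex of one of the equations (or the rank is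
maximal). There is no restriction on the degrees and on the numbers of variables. So the forms of
low rank, which are responsible for all known definitions of subrings of `ℚ`, can be used with
coefficients depending on `t`, and forms of rank at least five can be used with coefficients
depending on everything.

(1) Let `Q` be a rich set of primes. The sets `D` belong to the Boolean algebra of the starting file
`HassePrincipleFamilies`, which is generated by the conditions that a fibre of a family satisfying
the Hasse principle has a rational point and by local conditions (conjunctions of `p`-adic
conditions for all primes `p ∉ Q` are allowed).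

(2) So `ℤ` is not a Boolean combination of sets `D` as above and of these conditions: negations and
universal quantifiers do not help. A set of integers in the Boolean algebra is nowhere dense in `ℤ`
for the profinite topology.

(3) The hypotheses on the families hold for all quadric bundles `yᵀ A(t) y = 0`, `det A ≠ 0`, in three
variables (in diagonal form) and in at least five variables; the density holds for all quadric
bundles.

The proof. Nondegenerate real solutions of the triangular system deform to nondegenerate rational
solutions over all rational values of the free variables nearby (theorem of Meyer). So the solutions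
can be eliminated: `D` is the set of the `t` with `V_j(t)(ℚ) ≠ ∅` for all `j` for which there is a real
solution, up to finitely many `t`.
-/

set_option autoImplicit false

namespace Pool.Agent.Results.MP_28f2cb_lc.HasseTowers

open Polynomial Pool.Agent.TH766.HP Pool.Agent.Helper14K9.ZT.HT

theorem result :
    (∀ Q : Set ℕ, Rich Q →
      -- (1) tower sets are in the Boolean algebra of `HassePrincipleFamilies`
      (∀ D : Set ℚ, TowerSet D → Alg Q D) ∧
      -- (2) the integers are not in the Boolean algebra generated by both
      (¬ BoolAlg Q (Set.range fun n : ℤ => (n : ℚ))) ∧
      (∀ A : Set ℚ, BoolAlg Q A → A ⊆ Set.range (fun n : ℤ => (n : ℚ)) → ∀ a₁ b₁ : ℤ, 0 < b₁ →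
        ∃ a b : ℤ, 0 < b ∧ b₁ ∣ b ∧ b₁ ∣ a - a₁ ∧ ∀ n : ℤ, b ∣ n - a → (n : ℚ) ∉ A)) ∧
    -- there are sparse rich sets of primes
    (∀ f : ℕ → ℕ, ∃ q : ℕ → ℕ, StrictMono q ∧ (∀ i, f i ≤ q i) ∧ Rich (Set.range q)) ∧
    -- (3) quadric bundles
    (∀ (d : ℕ) (A : Matrix (Fin d) (Fin d) ℚ[X]), A.IsSymm → A.det ≠ 0 →
      Homog (quadric A) ∧ RealDense (quadric A) ∧ (5 ≤ d → HasseGen (quadric A))) ∧
    (∀ a b c : ℚ[X], a ≠ 0 → b ≠ 0 → c ≠ 0 →
      HasseGen (quadric (Matrix.diagonal ![a, b, c]))) := by
  refine ⟨fun Q hQ => ⟨fun D hD => alg_tower hD, fun h => ?_, fun A hA => ?_⟩, ?_, ?_, hasse_conic⟩
  · exact (HassePrincipleFamilies.result.1 Q hQ).1 (alg_of h)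
  · exact (HassePrincipleFamilies.result.1 Q hQ).2 A (alg_of hA)
  · exact HassePrincipleFamilies.result.2
  · intro d A hA hdet
    exact ⟨homog_quadric A, realDense_quadric hA hdet, fun hd => hasse_five hd hA hdet⟩

end Pool.Agent.Results.MP_28f2cb_lc.HasseTowers
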