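import Pool.Agent.Helper14K9.ZT.Step
import Pool.Agent.Results.MP_28f2cb_lc.SeveralParameters
import Pool.Agent.Y718.FinE

/-!
# The integers are not defined by towers of quadratic equations of rank at least five

Every existential formula over `ℚ` is equivalent to a system of quadratic equations. We consider
the sets of rational points which are obtained from given sets (blocks) by the following
operations (an inductive definition, `Tower`), which can be applied in any order and any number of
times: finite unions, products, strict polynomial inequalities, values of rational functions (in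
particular projections, that is existential quantifiers, and new variables which are rational
functions of the old ones), and

* quadric bundles: new variables `z = (z₁, …, z_m)` and a quadratic equation
  `(1, z)ᵀ A(w) (1, z) = 0`, whose coefficients are arbitrary polynomials in the old variables `w`,
  at the points where the rank of the symmetric matrix `A(w)` is at least five and `A(w) (1, z) ≠ 0`
  (or the rank of `A(w)` is maximal);
* more generally, fibrations: new variables `z` and equations `f₁(w, z) = … = f_k(w, z) = 0` of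
  maximal rank in `z`, such that the rational points are dense in the real points of the fibres.

So the formulas are towers: the coefficients of the next quadratic equation depend on all variables
which have been introduced before.

(1) If the closures of the blocks in the real space are semialgebraic over `ℚ`, then the same is
true for all these sets. (2) The sets of the values of rational functions at their points in an
arbitrary open set have only finitely many isolated points; (3) if these values are integers, there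
are only finitely many of them.

(4) By the starting files this applies to the following blocks: one equation of degree three or two
equations of degree two in any number of variables, equations `w² = f(x, y₁, …, y_r)` of degree four
in `x` and two in `y`, nondegenerate points of `w² = f(z₁, …, z_n)` with `f` of degree at most four
in each variable, and others. So the set of the integers (and every infinite set of integers) is not
in the smallest class which contains these blocks and is closed under the operations above.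

(5) Consider a triangular system of quadratic equations: free variables `t = w₀, w₁, …, w_k`, then
variables `z⁽¹⁾` and an equation which is quadratic in `z⁽¹⁾` with coefficients in `ℚ[w]`, then
variables `z⁽²⁾` and an equation which is quadratic in `z⁽²⁾` with coefficients in `ℚ[w, z⁽¹⁾]`, and
so on. (Each existential formula has this form.) The nondegenerate rational solutions are dense in
the nondegenerate real solutions, and over a rational `t` there is a nondegenerate rational solution
if and only if there is a real one. The set of these `t` is open in `ℚ`. Hence, if the system defines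
`ℤ`, or only implies `t ∈ ℤ`, then ALL its solutions are degenerate: one of the equations has rank
at most four at the solution, or the solution is a vertex of this equation and its rank is not
maximal.

(6) `ℤ` is not a Boolean combination of sets of rational numbers `t` over which given triangular
systems have nondegenerate solutions (this includes universal quantifiers).

The proof. Let `(w₀, z₀)` be a real point with `w₀` in the closure of the set `S` of the old points.
By the implicit function theorem the point `z₀` can be deformed to the fibres over all `w ∈ S` near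
`w₀`; these are quadrics of rank at least five with real points, which have a rational point by the
theorem of Meyer, and then dense rational points. So the closure of the new set is the closure of a
semialgebraic set. The vertices of the fibres are approximated by means of the kernels, which form
a vector bundle over the set of the points of maximal rank.
-/

set_option autoImplicit false

namespace Pool.Agent.Results.MP_28f2cb_lc.QuadricTowers

open MvPolynomial Matrix

/-- `w`, for `x = (w, z)`. -/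
def base {R : Type} {n m : ℕ} (x : Fin (n + m) → R) : Fin n → R := fun i => x (Fin.castAdd m i)

/-- `(1, z)`, for `x = (w, z)`. -/
def vec {R : Type} [One R] {n m : ℕ} (x : Fin (n + m) → R) : Fin (m + 1) → R :=
  Fin.cons 1 fun j => x (Fin.natAdd n j)

/-- The real points given by a set of rational points. -/
def real {n : ℕ} (S : Set (Fin n → ℚ)) : Set (Fin n → ℝ) := {x | ∃ y ∈ S, x = fun i => (y i : ℝ)}

/-- The closure in the real space is semialgebraic over `ℚ`, that is a finite union of sets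
`{P = 0, g₁ > 0, …, g_l > 0}` with polynomials over `ℚ`. -/
def Tame {n : ℕ} (S : Set (Fin n → ℚ)) : Prop :=
  ∃ (m : ℕ) (P : Fin m → MvPolynomial (Fin n) ℚ) (G : Fin m → Finset (MvPolynomial (Fin n) ℚ)),
    closure (real S) = {x : Fin n → ℝ | ∃ j : Fin m, (aeval x (P j) : ℝ) = 0 ∧
      ∀ g ∈ G j, (0 : ℝ) < aeval x g}

/-- The determinant of the derivatives of `f₁, …, f_k` with respect to the variables
`z_{e(1)}, …, z_{e(k)}`. -/
noncomputable def jacobian {n m k : ℕ} (f : Fin k → MvPolynomial (Fin (n + m)) ℚ)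
    (e : Fin k → Fin m) : MvPolynomial (Fin (n + m)) ℚ :=
  (Matrix.of fun i j => pderiv (Fin.natAdd n (e j)) (f i)).det

/-- The real points `(w, z)` with `f(w, z) = 0`, at which the Jacobian matrix of `f` with respect to
`z` has rank `k` and the inequalities `g(w, z) > 0`, `g ∈ G`, hold, are limits of rational points
`(w, z')` with `f(w, z') = 0`. -/
def DenseFibre {n m k : ℕ} (f : Fin k → MvPolynomial (Fin (n + m)) ℚ)
    (G : Finset (MvPolynomial (Fin (n + m)) ℚ)) (w : Fin n → ℚ) : Prop :=
  ∀ x : Fin (n + m) → ℝ, (base x = fun i => (w i : ℝ)) → (∀ i, (aeval x (f i) : ℝ) = 0) →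
    (∃ e, (aeval x (jacobian f e) : ℝ) ≠ 0) → (∀ g ∈ G, (0 : ℝ) < aeval x g) →
    x ∈ closure (real {y | base y = w ∧ ∀ i, eval y (f i) = 0})

/-- The smallest class of sets of rational points which contains the class `𝓑` and is closed under
the operations described above. -/
inductive Tower (𝓑 : ∀ n : ℕ, Set (Fin n → ℚ) → Prop) : ∀ n : ℕ, Set (Fin n → ℚ) → Prop
  /-- the given sets -/
  | block {n : ℕ} {S : Set (Fin n → ℚ)} : 𝓑 n S → Tower 𝓑 n S
  /-- unions -/
  | union {n : ℕ} {S T : Set (Fin n → ℚ)} : Tower 𝓑 n S → Tower 𝓑 n T → Tower 𝓑 n (S ∪ T)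
  /-- products -/
  | prod {n m : ℕ} {S : Set (Fin n → ℚ)} {T : Set (Fin m → ℚ)} : Tower 𝓑 n S → Tower 𝓑 m T →
      Tower 𝓑 (n + m) {x | (fun i => x (Fin.castAdd m i)) ∈ S ∧ (fun j => x (Fin.natAdd n j)) ∈ T}
  /-- strict inequalities -/
  | ineq {n : ℕ} {S : Set (Fin n → ℚ)} (g : MvPolynomial (Fin n) ℚ) : Tower 𝓑 n S →
      Tower 𝓑 n {x | x ∈ S ∧ 0 < eval x g}
  /-- values of rational functions -/
  | values {n m : ℕ} {S : Set (Fin n → ℚ)} (p : Fin m → MvPolynomial (Fin n) ℚ)
      (q : MvPolynomial (Fin n) ℚ) : Tower 𝓑 n S →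
      Tower 𝓑 m {y | ∃ x ∈ S, eval x q ≠ 0 ∧ ∀ k, y k = eval x (p k) / eval x q}
  /-- quadric bundles of rank at least five -/
  | quadric {n m : ℕ} {S : Set (Fin n → ℚ)}
      (A : Matrix (Fin (m + 1)) (Fin (m + 1)) (MvPolynomial (Fin n) ℚ)) : A.IsSymm → Tower 𝓑 n S →
      Tower 𝓑 (n + m) {x | base x ∈ S ∧ 5 ≤ (A.map (eval (base x))).rank ∧
        (A.map (eval (base x)) *ᵥ vec x ≠ 0 ∨
          ∀ w ∈ S, (A.map (eval w)).rank ≤ (A.map (eval (base x))).rank) ∧
        vec x ⬝ᵥ A.map (eval (base x)) *ᵥ vec x = 0}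
  /-- fibrations with dense fibres -/
  | fibration {n m k : ℕ} {S : Set (Fin n → ℚ)} (f : Fin k → MvPolynomial (Fin (n + m)) ℚ)
      (G : Finset (MvPolynomial (Fin (n + m)) ℚ)) : (∀ w ∈ S, DenseFibre f G w) → Tower 𝓑 n S →
      Tower 𝓑 (n + m) {x | base x ∈ S ∧ (∀ i, eval x (f i) = 0) ∧
        (∃ e, eval x (jacobian f e) ≠ 0) ∧ ∀ g ∈ G, 0 < eval x g}

/-- The blocks of `SeveralParameters` (which contain those of `CubicEquations`), and the sets of the
points for which some of the coordinates form a rational point `(w, x, y₁, …, y_r)` of a variety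
`w² = f(x, y₁, …, y_r)`, with `f` of degree at most four in `x` and at most two in `y₁, …, y_r`. -/
def Block (n : ℕ) (S : Set (Fin n → ℚ)) : Prop :=
  SeveralParameters.Block S ∨
  ∃ (r : ℕ) (f : MvPolynomial (Fin (r + 1)) ℚ) (e : Fin (r + 2) → Fin n), Function.Injective e ∧
    f.degreeOf 0 ≤ 4 ∧ (∀ d ∈ f.support, ∑ j : Fin r, d j.succ ≤ 2) ∧
    S = {y | y (e 0) ^ 2 = eval (fun k => y (e k.succ)) f}

/-- Triangular systems of quadratic equations with `n` variables: `S` is the set of the rational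
solutions, `N` the set of the nondegenerate rational solutions, `R` the set of the nondegenerate
real solutions, and the number of the free variable `t` is `i`. A solution is nondegenerate if at
each step the rank of the equation at the solution is at least five, and the solution is not a
vertex of the equation or the rank is maximal. -/
inductive Triangular : ∀ n : ℕ, Set (Fin n → ℚ) → Set (Fin n → ℚ) → Set (Fin n → ℝ) → Fin n → Prop
  /-- `k + 1` free variables, no equation -/
  | free (k : ℕ) : Triangular (k + 1) Set.univ Set.univ Set.univ 0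
  /-- `m` new variables and one equation -/
  | step {n : ℕ} {S N : Set (Fin n → ℚ)} {R : Set (Fin n → ℝ)} {i : Fin n} (m : ℕ)
      (A : Matrix (Fin (m + 1)) (Fin (m + 1)) (MvPolynomial (Fin n) ℚ)) : A.IsSymm →
      Triangular n S N R i →
      Triangular (n + m)
        {x | base x ∈ S ∧ vec x ⬝ᵥ A.map (eval (base x)) *ᵥ vec x = 0}
        {x | base x ∈ N ∧ 5 ≤ (A.map (eval (base x))).rank ∧
          (A.map (eval (base x)) *ᵥ vec x ≠ 0 ∨
            ∀ w : Fin n → ℚ, (A.map (eval w)).rank ≤ (A.map (eval (base x))).rank) ∧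
          vec x ⬝ᵥ A.map (eval (base x)) *ᵥ vec x = 0}
        {x | base x ∈ R ∧ 5 ≤ (A.map fun p => (aeval (base x) p : ℝ)).rank ∧
          ((A.map fun p => (aeval (base x) p : ℝ)) *ᵥ vec x ≠ 0 ∨
            ∀ w : Fin n → ℚ, (A.map (eval w)).rank ≤
              (A.map fun p => (aeval (base x) p : ℝ)).rank) ∧
          vec x ⬝ᵥ (A.map fun p => (aeval (base x) p : ℝ)) *ᵥ vec x = 0}
        (Fin.castAdd m i)

open Pool.Agent.Helper14K9.ZT Pool.Agent.TH729.SQ Pool.Agent.H581R2

lemma tame_iff {n : ℕ} (S : Set (Fin n → ℚ)) : Tame S ↔ Tm S := by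
  constructor
  · rintro ⟨m, P, G, h⟩
    have h1 : SA {x : Fin n → ℝ | ∃ j : Fin m, (aeval x (P j) : ℝ) = 0 ∧
        ∀ g ∈ G j, (0 : ℝ) < aeval x g} :=
      SAP.exists_fin fun j => (SAP.eq_zero (PF.aeval _)).and
        (SAP.forall_mem (G j) fun g _ => SAP.pos (PF.aeval g))
    rw [← h] at h1
    exact h1
  · intro h
    exact SA.frozen h

theorem tower_tm {𝓑 : ∀ n : ℕ, Set (Fin n → ℚ) → Prop} (h𝓑 : ∀ n S, 𝓑 n S → Tm S) {n : ℕ}
    {S : Set (Fin n → ℚ)} (h : Tower 𝓑 n S) : Tm S := by
  induction h with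
  | block h => exact h𝓑 _ _ h
  | union _ _ h1 h2 => exact h1.union h2
  | prod _ _ h1 h2 => exact h1.prod h2
  | ineq g _ h1 => exact h1.pos g
  | values p q _ h1 => exact h1.values p q
  | quadric A hA _ h1 => exact h1.quadU hA
  | fibration f G hf _ h1 =>
    refine h1.fam f G ?_
    intro w hw x hx hx0 hxe hxG
    have h2 := hf w hw x hx hx0 hxe hxG
    refine closure_mono ?_ h2
    rintro _ ⟨y, ⟨hy1, hy2⟩, rfl⟩
    exact ⟨y, hy1, hy2, rfl⟩

theorem block_tm : ∀ (n : ℕ) (S : Set (Fin n → ℚ)), Block n S → Tm S := by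
  rintro n S (h | ⟨r, f, e, he, h0, hy, rfl⟩)
  · exact h.sa
  · exact Pool.Agent.Y718.SupL.cyl_rl (Pool.Agent.Y718.line_final f h0 hy) he

theorem nondegenerate_sub {n : ℕ} {S N : Set (Fin n → ℚ)} {R : Set (Fin n → ℝ)} {i : Fin n}
    (T : Triangular n S N R i) : N ⊆ S := by
  induction T with
  | free k => exact subset_rfl
  | step m A hA T ih =>
    rintro x ⟨h1, -, -, h2⟩
    exact ⟨ih h1, h2⟩

theorem real_sa {n : ℕ} {S N : Set (Fin n → ℚ)} {R : Set (Fin n → ℝ)} {i : Fin n}
    (T : Triangular n S N R i) : SA R := by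
  induction T with
  | free k => exact SA.univ
  | step m A hA T ih => exact real_SA (A := A) ih

theorem cast_mem {n : ℕ} {S N : Set (Fin n → ℚ)} {R : Set (Fin n → ℝ)} {i : Fin n}
    (T : Triangular n S N R i) : ∀ x ∈ N, (fun i => ((x i : ℚ) : ℝ)) ∈ R := by
  induction T with
  | free k => exact fun x _ => Set.mem_univ _
  | step m A hA T ih =>
    rintro x ⟨h1, h2, h3, h4⟩
    have e1 : Pool.Agent.R847.QB.atr A (Pool.Agent.R847.QB.rv (base x)) =
        (Pool.Agent.R847.QB.atq A (base x)).map (algebraMap ℚ ℝ) :=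
      Pool.Agent.R847.QB.atr_rv A (base x)
    have e2 : (Pool.Agent.R847.QB.atr A (Pool.Agent.R847.QB.rv (base x))).rank =
        (Pool.Agent.R847.QB.atq A (base x)).rank := by
      rw [e1, Pool.Agent.R847.QB.rank_map_eq]
    have e3 : Pool.Agent.R847.QB.atr A (Pool.Agent.R847.QB.rv (base x)) *ᵥ
        Pool.Agent.R847.QB.fb (Pool.Agent.R847.QB.rv x) =
        Pool.Agent.R847.QB.rv (Pool.Agent.R847.QB.atq A (base x) *ᵥ
          Pool.Agent.R847.QB.fb x) := by
      rw [e1, Pool.Agent.R847.QB.fb_rv, Pool.Agent.R847.QB.rv_mulVec]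
    refine ⟨ih _ h1, ?_, ?_, ?_⟩
    · show 5 ≤ (Pool.Agent.R847.QB.atr A (Pool.Agent.R847.QB.rv (base x))).rank
      rw [e2]
      exact h2
    · rcases h3 with h3 | h3
      · left
        show Pool.Agent.R847.QB.atr A (Pool.Agent.R847.QB.rv (base x)) *ᵥ
          Pool.Agent.R847.QB.fb (Pool.Agent.R847.QB.rv x) ≠ 0
        rw [e3]
        intro h0
        apply h3
        apply Pool.Agent.R847.QB.rv_inj
        exact h0.trans Pool.Agent.R847.QB.rv_zero.symm
      · right
        intro w
        show _ ≤ (Pool.Agent.R847.QB.atr A (Pool.Agent.R847.QB.rv (base x))).rank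
        rw [e2]
        exact h3 w
    · show Pool.Agent.R847.QB.fb (Pool.Agent.R847.QB.rv x) ⬝ᵥ
        Pool.Agent.R847.QB.atr A (Pool.Agent.R847.QB.rv (base x)) *ᵥ
          Pool.Agent.R847.QB.fb (Pool.Agent.R847.QB.rv x) = 0
      rw [e3, Pool.Agent.R847.QB.fb_rv, Pool.Agent.R847.QB.rv_dot]
      have h5 : Pool.Agent.R847.QB.fb x ⬝ᵥ Pool.Agent.R847.QB.atq A (base x) *ᵥ
          Pool.Agent.R847.QB.fb x = 0 := h4
      rw [h5, Rat.cast_zero]

/-- real nondegenerate solutions deform to rational solutions over all rational `t` nearby -/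
theorem local_values {n : ℕ} {S N : Set (Fin n → ℚ)} {R : Set (Fin n → ℝ)} {i : Fin n}
    (T : Triangular n S N R i) : ∀ x ∈ R, ∀ ε : ℝ, 0 < ε →
    ∃ δ : ℝ, 0 < δ ∧ ∀ t : ℚ, |(t : ℝ) - x i| < δ →
      ∃ y ∈ N, y i = t ∧ ∀ i, |((y i : ℚ) : ℝ) - x i| < ε := by
  induction T with
  | free k =>
    intro x _ ε hε
    choose y hy using fun i => exists_rat_btwn (show x i < x i + ε by linarith)
    refine ⟨ε, hε, fun t ht => ⟨Function.update y 0 t, Set.mem_univ _, by simp, fun i => ?_⟩⟩
    by_cases hi : i = 0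
    · subst hi
      simpa using ht
    · rw [Function.update_of_ne hi, abs_lt]
      exact ⟨by linarith [(hy i).1], by linarith [(hy i).2]⟩
  | step m A hA T ih =>
    rintro x ⟨h1, h2, h3, h4⟩ ε hε
    obtain ⟨δ₁, hδ₁, h5⟩ := step_lift hA x h2 h3 h4 hε
    obtain ⟨δ, hδ, h6⟩ := ih (base x) h1 (min δ₁ ε) (lt_min hδ₁ hε)
    refine ⟨δ, hδ, fun t ht => ?_⟩
    obtain ⟨w, hw, hwt, hwx⟩ := h6 t ht
    obtain ⟨y, hy1, hy2, hy3, hy4, hy5⟩ := h5 w fun i => (hwx i).trans_le (min_le_left _ _)
    have hy1' : base y = w := hy1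
    subst hy1'
    refine ⟨y, ⟨hw, hy2, hy3, hy4⟩, hwt, fun i => ?_⟩
    refine Fin.addCases (fun i => ?_) (fun j => ?_) i
    · exact (hwx i).trans_le (min_le_right _ _)
    · exact hy5 j

theorem exists_iff {n : ℕ} {S N : Set (Fin n → ℚ)} {R : Set (Fin n → ℝ)} {i : Fin n}
    (T : Triangular n S N R i) (t : ℚ) : (∃ x ∈ N, x i = t) ↔ ∃ x ∈ R, x i = (t : ℝ) := by
  constructor
  · rintro ⟨x, hx, rfl⟩
    exact ⟨_, cast_mem T x hx, rfl⟩
  · rintro ⟨x, hx, hxt⟩
    obtain ⟨δ, hδ, h⟩ := local_values T x hx 1 one_pos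
    obtain ⟨y, hy, hyt, -⟩ := h t (by rw [hxt, sub_self, abs_zero]; exact hδ)
    exact ⟨y, hy, hyt⟩

/-- the values of `t` at the real nondegenerate solutions -/
theorem values_sa {n : ℕ} {S N : Set (Fin n → ℚ)} {R : Set (Fin n → ℝ)} {i : Fin n}
    (T : Triangular n S N R i) : SA {v : Fin 1 → ℝ | ∃ x ∈ R, x i = v 0} := by
  have h1 := SAP.exists_fun (Fin n) (Fin 1) (fun w => (fun i => w (Sum.inl i)) ∈ R ∧
    w (Sum.inl i) = w (Sum.inr 0)) (by
      refine SAP.and ?_ (SAP.eq (PF.coord _) (PF.coord _))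
      exact SAP.preimage (p := fun v => v ∈ R) (real_sa T) (fun i => PF.coord _))
  exact SAP.congr h1 fun v => Iff.rfl

theorem boolean_ne (M : ℕ) (n : Fin M → ℕ) (S N : ∀ j, Set (Fin (n j) → ℚ))
    (R : ∀ j, Set (Fin (n j) → ℝ)) (i : ∀ j, Fin (n j))
    (T : ∀ j, Triangular (n j) (S j) (N j) (R j) (i j)) (F : (Fin M → Prop) → Prop) :
    {t : ℚ | F fun j => ∃ x ∈ N j, x (i j) = t} ≠ Set.range ((↑) : ℤ → ℚ) := by
  have hV : SA {v : Fin 1 → ℝ | F fun j => ∃ x ∈ R j, x (i j) = v 0} := by
    classical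
    choose Q hQ using fun j => (values_sa (T j)).iff
    refine ⟨Finset.univ.biUnion Q, fun v w h hv => ?_⟩
    have h2 : (fun j => ∃ x ∈ R j, x (i j) = v 0) = fun j => ∃ x ∈ R j, x (i j) = w 0 := by
      funext j
      exact propext (hQ j v w fun q hq => h q (Finset.mem_biUnion.2 ⟨j, Finset.mem_univ _, hq⟩))
    have hv' : F fun j => ∃ x ∈ R j, x (i j) = v 0 := hv
    rw [h2] at hv'
    exact hv'
  have h1 := line_ne hV
  have e : {t : ℚ | F fun j => ∃ x ∈ N j, x (i j) = t} =
      {t : ℚ | (fun _ => (t : ℝ)) ∈ {v : Fin 1 → ℝ | F fun j => ∃ x ∈ R j, x (i j) = v 0}} := by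
    ext t
    show (F _) ↔ (F _)
    have h2 : (fun j => ∃ x ∈ N j, x (i j) = t) = fun j => ∃ x ∈ R j, x (i j) = (t : ℝ) := by
      funext j
      exact propext (exists_iff (T j) t)
    rw [h2]
  rw [e]
  exact h1

theorem result :
    -- (1) all sets of the class have semialgebraic closures
    (∀ 𝓑 : ∀ n : ℕ, Set (Fin n → ℚ) → Prop, (∀ n S, 𝓑 n S → Tame S) →
      ∀ (n : ℕ) (S : Set (Fin n → ℚ)), Tower 𝓑 n S → Tame S) ∧
    -- (2) finitely many isolated values
    (∀ 𝓑 : ∀ n : ℕ, Set (Fin n → ℚ) → Prop, (∀ n S, 𝓑 n S → Tame S) →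
      ∀ (n : ℕ) (S : Set (Fin n → ℚ)), Tower 𝓑 n S → ∀ Ω : Set (Fin n → ℝ), IsOpen Ω →
      ∀ (m : ℕ) (p : Fin m → MvPolynomial (Fin n) ℚ) (q : MvPolynomial (Fin n) ℚ)
        (D : Set (Fin m → ℚ)),
        D = {t | ∃ x ∈ S, (fun i => (x i : ℝ)) ∈ Ω ∧ eval x q ≠ 0 ∧
          ∀ k, t k = eval x (p k) / eval x q} →
        {t ∈ D | ∃ U ∈ nhds (fun k => (t k : ℝ)), ∀ s ∈ D, (fun k => (s k : ℝ)) ∈ U →
          s = t}.Finite ∧
        -- (3) finitely many integral values
        ((∀ t ∈ D, ∀ k, ∃ z : ℤ, t k = z) → D.Finite)) ∧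
    -- (4) the blocks of the starting files
    ((∀ (n : ℕ) (S : Set (Fin n → ℚ)), Block n S → Tame S) ∧
      (∀ D : Set (Fin 1 → ℚ), Tower Block 1 D → (∀ t ∈ D, ∃ z : ℤ, t 0 = z) → D.Finite) ∧
      ¬ Tower Block 1 {t | ∃ z : ℤ, t 0 = z}) ∧
    -- (5) triangular systems
    (∀ (n : ℕ) (S N : Set (Fin n → ℚ)) (R : Set (Fin n → ℝ)) (i : Fin n), Triangular n S N R i →
      R ⊆ closure (real N) ∧
      (∀ t : ℚ, (∃ x ∈ N, x i = t) ↔ ∃ x ∈ R, x i = (t : ℝ)) ∧
      IsOpen {t : ℚ | ∃ x ∈ N, x i = t} ∧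
      ((∀ x ∈ S, ∃ z : ℤ, x i = z) → N = ∅)) ∧
    -- (6) Boolean combinations
    (∀ (M : ℕ) (n : Fin M → ℕ) (S N : ∀ j, Set (Fin (n j) → ℚ)) (R : ∀ j, Set (Fin (n j) → ℝ))
      (i : ∀ j, Fin (n j)), (∀ j, Triangular (n j) (S j) (N j) (R j) (i j)) →
      ∀ F : (Fin M → Prop) → Prop,
        {t : ℚ | F fun j => ∃ x ∈ N j, x (i j) = t} ≠ Set.range ((↑) : ℤ → ℚ)) := by
  have h1 : ∀ 𝓑 : ∀ n : ℕ, Set (Fin n → ℚ) → Prop, (∀ n S, 𝓑 n S → Tame S) →
      ∀ (n : ℕ) (S : Set (Fin n → ℚ)), Tower 𝓑 n S → Tame S := by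
    intro 𝓑 h𝓑 n S hS
    exact (tame_iff S).2 (tower_tm (fun n S h => (tame_iff S).1 (h𝓑 n S h)) hS)
  have h2 : ∀ 𝓑 : ∀ n : ℕ, Set (Fin n → ℚ) → Prop, (∀ n S, 𝓑 n S → Tame S) →
      ∀ (n : ℕ) (S : Set (Fin n → ℚ)), Tower 𝓑 n S → ∀ Ω : Set (Fin n → ℝ), IsOpen Ω →
      ∀ (m : ℕ) (p : Fin m → MvPolynomial (Fin n) ℚ) (q : MvPolynomial (Fin n) ℚ)
        (D : Set (Fin m → ℚ)),
        D = {t | ∃ x ∈ S, (fun i => (x i : ℝ)) ∈ Ω ∧ eval x q ≠ 0 ∧
          ∀ k, t k = eval x (p k) / eval x q} →
        {t ∈ D | ∃ U ∈ nhds (fun k => (t k : ℝ)), ∀ s ∈ D, (fun k => (s k : ℝ)) ∈ U →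
          s = t}.Finite ∧
        ((∀ t ∈ D, ∀ k, ∃ z : ℤ, t k = z) → D.Finite) := by
    intro 𝓑 h𝓑 n S hS Ω hΩ m p q D hD
    have h3 := Pool.Agent.Y718.IsoR.isolated
      ((tame_iff S).1 (h1 𝓑 h𝓑 n S hS)) hΩ p q hD
    refine ⟨h3, fun hint => h3.subset fun t ht => ⟨ht, Metric.ball (fun k => (t k : ℝ)) 1,
      Metric.ball_mem_nhds _ one_pos, fun s hs hst => ?_⟩⟩
    rw [Metric.mem_ball, dist_pi_lt_iff one_pos] at hst
    funext k
    obtain ⟨a, ha⟩ := hint t ht k
    obtain ⟨b, hb⟩ := hint s hs k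
    have h4 := hst k
    rw [ha, hb, Real.dist_eq] at h4
    have h5 : |b - a| < 1 := by exact_mod_cast h4
    have h6 : b - a = 0 := Int.abs_lt_one_iff.1 h5
    have h7 : b = a := by omega
    rw [ha, hb, h7]
  have h3 : ∀ (n : ℕ) (S : Set (Fin n → ℚ)), Block n S → Tame S := fun n S h =>
    (tame_iff S).2 (block_tm n S h)
  have h4 : ∀ D : Set (Fin 1 → ℚ), Tower Block 1 D → (∀ t ∈ D, ∃ z : ℤ, t 0 = z) → D.Finite := by
    intro D hD hint
    refine (h2 Block h3 1 D hD Set.univ isOpen_univ 1 (fun k => X k) 1 D ?_).2 ?_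
    · ext t
      constructor
      · intro ht
        exact ⟨t, ht, Set.mem_univ _, by simp, fun k => by simp⟩
      · rintro ⟨x, hx, -, -, h⟩
        have : t = x := by
          funext k
          simpa using h k
        rw [this]
        exact hx
    · intro t ht k
      rw [Subsingleton.elim k 0]
      exact hint t ht
  refine ⟨h1, h2, ⟨h3, h4, fun h => ?_⟩, fun n S N R i T => ?_, boolean_ne⟩
  · have h5 := h4 _ h fun t ht => ht
    have h6 : (Set.range fun (z : ℤ) (_ : Fin 1) => (z : ℚ)).Infinite := by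
      refine Set.infinite_range_of_injective fun a b hab => ?_
      have := congrFun hab 0
      exact_mod_cast this
    exact h6 (h5.subset (by rintro _ ⟨z, rfl⟩; exact ⟨z, rfl⟩))
  · have hdense : R ⊆ closure (real N) := by
      intro x hx
      rw [Metric.mem_closure_iff]
      intro ε hε
      obtain ⟨δ, hδ, h⟩ := local_values T x hx ε hε
      obtain ⟨t, ht1, ht2⟩ := exists_rat_btwn (show x i < x i + δ by linarith)
      obtain ⟨y, hy, -, hyx⟩ := h t (by rw [abs_lt]; constructor <;> linarith)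
      refine ⟨_, ⟨y, hy, rfl⟩, ?_⟩
      rw [dist_comm, dist_pi_lt_iff hε]
      intro i
      rw [Real.dist_eq]
      exact hyx i
    have hloc : ∀ x ∈ N, ∃ δ : ℝ, 0 < δ ∧ ∀ t : ℚ, |(t : ℝ) - x i| < δ → ∃ y ∈ N, y i = t := by
      intro x hx
      obtain ⟨δ, hδ, h⟩ := local_values T _ (cast_mem T x hx) 1 one_pos
      refine ⟨δ, hδ, fun t ht => ?_⟩
      obtain ⟨y, hy, hyt, -⟩ := h t ht
      exact ⟨y, hy, hyt⟩
    have hop : IsOpen {t : ℚ | ∃ x ∈ N, x i = t} := by
      rw [Metric.isOpen_iff]
      rintro _ ⟨x, hx, rfl⟩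
      obtain ⟨δ, hδ, h⟩ := hloc x hx
      refine ⟨δ, hδ, fun t ht => h t ?_⟩
      rw [Metric.mem_ball, Rat.dist_eq] at ht
      exact ht
    refine ⟨hdense, exists_iff T, hop, fun hint => ?_⟩
    by_contra hne
    obtain ⟨x, hx⟩ := Set.nonempty_iff_ne_empty.2 hne
    obtain ⟨δ, hδ, h⟩ := hloc x hx
    obtain ⟨M, hM⟩ := exists_nat_one_div_lt hδ
    obtain ⟨z, hz⟩ := hint x (nondegenerate_sub T hx)
    obtain ⟨y, hy, hyt⟩ := h (x i + 1 / (M + 2)) (by
      push_cast
      rw [add_sub_cancel_left, abs_of_pos (by positivity)]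
      refine lt_of_le_of_lt ?_ hM
      exact one_div_le_one_div_of_le (by positivity) (by linarith))
    obtain ⟨z', hz'⟩ := hint y (nondegenerate_sub T hy)
    rw [hyt, hz] at hz'
    have h7 : (1 : ℚ) / (M + 2) = ((z' - z : ℤ) : ℚ) := by
      push_cast
      linarith
    have h8 : (0 : ℚ) < 1 / (M + 2) := by positivity
    have h9 : (1 : ℚ) / (M + 2) < 1 := by
      rw [div_lt_one (by positivity)]
      have : (0 : ℚ) ≤ M := Nat.cast_nonneg M
      linarith
    rw [h7] at h8 h9
    have h10 : 0 < z' - z := by exact_mod_cast h8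
    have h11 : z' - z < 1 := by exact_mod_cast h9
    omega

end Pool.Agent.Results.MP_28f2cb_lc.QuadricTowers
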